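import Mathlib
import Pool.Agent.Results.MP_8fdcc7_lc.DominatingUltrafilterNumber
import Pool.Agent.Helper292.ForceCH

set_option autoImplicit false

/-!
# MP_8fdcc7_lc, Q1: it is consistent that there is an ultrafilter `U` which is not a p-point and
satisfies `(U, ⊇*) <_T (U, ⊇)`
-/

namespace Pool.Agent.Results.MP_8fdcc7_lc.ConsistentlyYes

open Cardinal Filter
open Pool.Agent.Results.MP_8fdcc7_lc.DominatingUltrafilterNumber

theorem aleph1_le_d : ℵ₁ ≤ d := by
  refine le_csInf ⟨_, Set.univ, fun f => ⟨f, trivial, Eventually.of_forall fun _ => le_rfl⟩, rfl⟩ ?_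
  rintro κ ⟨S, hS, rfl⟩
  rw [← Cardinal.succ_aleph0, Order.succ_le_iff, ← not_le]
  intro hc
  have hc' : S.Countable := Cardinal.le_aleph0_iff_set_countable.1 hc
  obtain ⟨g0, hg0, -⟩ := hS fun _ => 0
  obtain ⟨g, hg⟩ := hc'.exists_eq_range ⟨g0, hg0⟩
  obtain ⟨h, hhS, hh⟩ := hS fun n => (Finset.range (n + 1)).sup (fun k => g k n) + 1
  rw [hg] at hhS
  obtain ⟨m, rfl⟩ := hhS
  obtain ⟨N, hN⟩ := eventually_atTop.1 hh
  have h1 := hN (max N m) (le_max_left _ _)
  have h2 : g m (max N m) ≤ (Finset.range (max N m + 1)).sup fun k => g k (max N m) :=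
    Finset.le_sup (f := fun k => g k (max N m))
      (Finset.mem_range.2 (Nat.lt_succ_of_le (le_max_right _ _)))
  omega

theorem d_le : d ≤ Cardinal.continuum := by
  refine csInf_le' ⟨Set.univ, fun f => ⟨f, trivial, Eventually.of_forall fun _ => le_rfl⟩, ?_⟩
  rw [Cardinal.mk_univ]
  simp

/-- (1) Some notion of forcing forces that `ω₁` is preserved and that the continuum hypothesis
holds. (2) The continuum hypothesis implies that there are nonprincipal p-points `V` and `W` whose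
Fubini product `U` is a nonprincipal ultrafilter on `ℕ`, not a p-point, with
`(U, ⊇*) <_T (U, ⊇)`. -/
theorem result :
    (∃ (P : Type) (_ : Preorder P), Nonempty P ∧ ∀ p : P,
      p ∈ Pool.Agent.Helper292.ForceCH.OmegaOnePreserved P ∧
      p ∈ Pool.Agent.Helper292.ForceCH.CHHolds P) ∧
    (Cardinal.aleph 1 = Cardinal.continuum.{0} →
      ∃ V W : Ultrafilter ℕ, Nonprincipal V ∧ PPoint V ∧ Nonprincipal W ∧ PPoint W ∧
        Nonprincipal (fubini V W) ∧ ¬ PPoint (fubini V W) ∧
        Tukey (Alm (fubini V W)) (Incl (fubini V W)) ∧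
        ¬ Tukey (Incl (fubini V W)) (Alm (fubini V W))) := by
  refine ⟨?_, fun hCH => DominatingUltrafilterNumber.result (Or.inl (le_antisymm d_le ?_))⟩
  · obtain ⟨P, i, h1, h2⟩ := Pool.Agent.Helper292.ForceCH.exists_forcing
    exact ⟨P, i, h1, fun p => ⟨(h2 p).1, (h2 p).2.2⟩⟩
  · rw [← hCH]
    exact aleph1_le_d

end Pool.Agent.Results.MP_8fdcc7_lc.ConsistentlyYes
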